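import Pool.Agent.Leo4.Stmts

/-!
# Squad leo4, module CHV: change of variables `(a, b, c, d) -> (b / a, P, M)`
-/

set_option autoImplicit false

namespace Pool.Agent.Leo4.H29

open MeasureTheory Set Pool.Agent.Leo4

open scoped ENNReal

/-! ### One variable -/

/-- affine change of variables -/
lemma aff (f : ℝ → ℝ≥0∞) (hf : Measurable f) (c b : ℝ) (hc : c ≠ 0) :
    ∫⁻ x, f (c * x + b) = ENNReal.ofReal |c⁻¹| * ∫⁻ x, f x := by
  have h1 : ∫⁻ x, f (c * x + b) = ∫⁻ y, f (y + b) ∂(Measure.map (fun x => c * x) volume) := by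
    rw [lintegral_map (by fun_prop) (by fun_prop)]
  rw [h1, Real.map_volume_mul_left hc, lintegral_smul_measure, lintegral_add_right_eq_self f b]
  rfl

/-- inversion of the square -/
lemma inv_pos (K : ℝ) (hK : 0 < K) (g : ℝ → ℝ≥0∞) :
    ∫⁻ a in Ioi (0 : ℝ), ENNReal.ofReal (a ^ 2)⁻¹ * g (K / a ^ 2) =
      ∫⁻ M in Ioi (0 : ℝ), g M * ENNReal.ofReal (1 / (2 * Real.sqrt (K * M))) := by
  have himg : (fun a : ℝ => K / a ^ 2) '' Ioi 0 = Ioi 0 := by
    ext M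
    constructor
    · rintro ⟨a, ha, rfl⟩
      have ha' : 0 < a := ha
      show 0 < K / a ^ 2
      positivity
    · intro hM
      have hM' : 0 < M := hM
      refine ⟨Real.sqrt (K / M), Real.sqrt_pos.2 (div_pos hK hM'), ?_⟩
      show K / Real.sqrt (K / M) ^ 2 = M
      rw [Real.sq_sqrt (div_pos hK hM').le]
      field_simp
  have hd : ∀ a ∈ Ioi (0 : ℝ), HasDerivWithinAt (fun a : ℝ => K / a ^ 2)
      (-(2 * K / a ^ 3)) (Ioi 0) a := by
    intro a ha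
    have ha' : (0 : ℝ) < a := ha
    have h1 : HasDerivAt (fun a : ℝ => K / a ^ 2)
        ((0 * a ^ 2 - K * ((2 : ℕ) * a ^ (2 - 1) * 1)) / (a ^ 2) ^ 2) a :=
      (hasDerivAt_const a K).div ((hasDerivAt_id a).pow 2) (by positivity)
    refine (h1.congr_deriv ?_).hasDerivWithinAt
    field_simp
    ring
  have hinj : InjOn (fun a : ℝ => K / a ^ 2) (Ioi 0) := by
    intro a ha b hb hab
    have ha' : (0 : ℝ) < a := ha
    have hb' : (0 : ℝ) < b := hb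
    have h1 : K / a ^ 2 = K / b ^ 2 := hab
    have h2 : a ^ 2 = b ^ 2 := by
      have h3 := div_eq_div_iff (by positivity : a ^ 2 ≠ 0) (by positivity : b ^ 2 ≠ 0) |>.1 h1
      have h4 : K * (a ^ 2 - b ^ 2) = 0 := by linarith
      rcases mul_eq_zero.1 h4 with h5 | h5
      · exact absurd h5 hK.ne'
      · linarith
    exact (pow_left_inj₀ ha'.le hb'.le (by norm_num)).1 h2
  have h := lintegral_image_eq_lintegral_abs_deriv_mul measurableSet_Ioi hd hinj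
    (fun M => g M * ENNReal.ofReal (1 / (2 * Real.sqrt (K * M))))
  rw [himg] at h
  rw [h]
  refine setLIntegral_congr_fun measurableSet_Ioi fun a ha => ?_
  have ha' : (0 : ℝ) < a := ha
  have h1 : Real.sqrt (K * (K / a ^ 2)) = K / a := by
    rw [show K * (K / a ^ 2) = (K / a) ^ 2 by ring, Real.sqrt_sq (by positivity)]
  have h2 : |(-(2 * K / a ^ 3))| = 2 * K / a ^ 3 := by
    rw [abs_neg, abs_of_pos (by positivity)]
  show ENNReal.ofReal (a ^ 2)⁻¹ * g (K / a ^ 2) = ENNReal.ofReal |(-(2 * K / a ^ 3))| *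
    (g (K / a ^ 2) * ENNReal.ofReal (1 / (2 * Real.sqrt (K * (K / a ^ 2)))))
  rw [h1, h2, mul_comm (g (K / a ^ 2)), ← mul_assoc, ← ENNReal.ofReal_mul (by positivity)]
  congr 2
  field_simp

lemma inv_ne (K : ℝ) (hK : 0 < K) (g : ℝ → ℝ≥0∞) :
    ∫⁻ a in {a : ℝ | a ≠ 0}, ENNReal.ofReal (a ^ 2)⁻¹ * g (K / a ^ 2) =
      2 * ∫⁻ M in Ioi (0 : ℝ), g M * ENNReal.ofReal (1 / (2 * Real.sqrt (K * M))) := by
  have h1 : {a : ℝ | a ≠ 0} = Iio 0 ∪ Ioi 0 := by
    ext a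
    simp only [Set.mem_ofPred_eq, mem_union, mem_Iio, mem_Ioi]
    exact ne_iff_lt_or_gt
  have h2 : Disjoint (Iio (0 : ℝ)) (Ioi 0) :=
    Set.disjoint_left.2 fun a ha hb => lt_asymm (show a < 0 from ha) hb
  have h3 : ∫⁻ a in Iio (0 : ℝ), ENNReal.ofReal (a ^ 2)⁻¹ * g (K / a ^ 2) =
      ∫⁻ a in Ioi (0 : ℝ), ENNReal.ofReal (a ^ 2)⁻¹ * g (K / a ^ 2) := by
    have h4 := (Measure.measurePreserving_neg (volume : Measure ℝ)).setLIntegral_comp_preimage_emb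
      (MeasurableEquiv.neg ℝ).measurableEmbedding
      (fun a => ENNReal.ofReal (a ^ 2)⁻¹ * g (K / a ^ 2)) (Ioi 0)
    rw [← h4]
    have h5 : (Neg.neg : ℝ → ℝ) ⁻¹' (Ioi 0) = Iio 0 := by
      ext a
      simp
    rw [h5]
    refine setLIntegral_congr_fun measurableSet_Iio fun a _ => ?_
    simp only [neg_sq]
  rw [h1, lintegral_union measurableSet_Ioi h2, h3, inv_pos K hK g, two_mul]

/-- the arcsine -/
lemma asin (R : ℝ) (hR : 0 < R) (s : Set ℝ) (hs : MeasurableSet s)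
    (hs' : s ⊆ Ioo (-(Real.pi / 2)) (Real.pi / 2)) :
    ∫⁻ X in (fun θ => R * Real.sin θ) '' s, ENNReal.ofReal (1 / Real.sqrt (R ^ 2 - X ^ 2)) =
      volume s := by
  have hd : ∀ θ ∈ s, HasDerivWithinAt (fun θ => R * Real.sin θ) (R * Real.cos θ) s θ :=
    fun θ _ => ((Real.hasDerivAt_sin θ).const_mul R).hasDerivWithinAt
  have hinj : InjOn (fun θ => R * Real.sin θ) s := by
    intro x hx y hy hxy
    have h1 : Real.sin x = Real.sin y := mul_left_cancel₀ hR.ne' hxy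
    exact Real.strictMonoOn_sin.injOn (Ioo_subset_Icc_self (hs' hx))
      (Ioo_subset_Icc_self (hs' hy)) h1
  rw [lintegral_image_eq_lintegral_abs_deriv_mul hs hd hinj, ← setLIntegral_one]
  refine setLIntegral_congr_fun hs fun θ hθ => ?_
  have hc : 0 < Real.cos θ := Real.cos_pos_of_mem_Ioo (hs' hθ)
  have h1 : Real.sqrt (R ^ 2 - (R * Real.sin θ) ^ 2) = R * Real.cos θ := by
    rw [show R ^ 2 - (R * Real.sin θ) ^ 2 = (R * Real.cos θ) ^ 2 by
      have := Real.sin_sq_add_cos_sq θ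
      nlinarith, Real.sqrt_sq (by positivity)]
  show ENNReal.ofReal |R * Real.cos θ| *
    ENNReal.ofReal (1 / Real.sqrt (R ^ 2 - (R * Real.sin θ) ^ 2)) = 1
  rw [h1, abs_of_pos (by positivity), ← ENNReal.ofReal_mul (by positivity), mul_one_div_cancel
    (by positivity), ENNReal.ofReal_one]

lemma sin_image (R : ℝ) (hR : 0 < R) (x : ℝ) (hx : x ^ 2 < R ^ 2) :
    Real.arcsin (x / R) ∈ Ioo (-(Real.pi / 2)) (Real.pi / 2) ∧
      R * Real.sin (Real.arcsin (x / R)) = x := by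
  have h1 : |x| < R := abs_lt_of_sq_lt_sq hx hR.le
  have h2 := abs_lt.1 h1
  have h3 : -1 < x / R := by rw [lt_div_iff₀ hR]; linarith
  have h4 : x / R < 1 := by rw [div_lt_one hR]; exact h2.2
  refine ⟨⟨Real.neg_pi_div_two_lt_arcsin.2 h3, Real.arcsin_lt_pi_div_two.2 h4⟩, ?_⟩
  rw [Real.sin_arcsin h3.le h4.le]
  field_simp

lemma asin_univ (R : ℝ) (hR : 0 < R) :
    ∫⁻ X in {X : ℝ | X ∈ (univ : Set ℝ) ∧ X ^ 2 < R ^ 2},
      ENNReal.ofReal (1 / Real.sqrt (R ^ 2 - X ^ 2)) = ENNReal.ofReal Real.pi := by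
  have h1 : {X : ℝ | X ∈ (univ : Set ℝ) ∧ X ^ 2 < R ^ 2} =
      (fun θ => R * Real.sin θ) '' Ioo (-(Real.pi / 2)) (Real.pi / 2) := by
    ext X
    constructor
    · rintro ⟨-, h⟩
      exact ⟨_, (sin_image R hR X h).1, (sin_image R hR X h).2⟩
    · rintro ⟨θ, hθ, rfl⟩
      refine ⟨mem_univ _, ?_⟩
      have hc : 0 < Real.cos θ := Real.cos_pos_of_mem_Ioo hθ
      have h2 := Real.sin_sq_add_cos_sq θ
      show (R * Real.sin θ) ^ 2 < R ^ 2
      have h3 : 0 < (R * Real.cos θ) ^ 2 := by positivity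
      nlinarith
  rw [h1, asin R hR _ measurableSet_Ioo (le_refl _), Real.volume_Ioo]
  congr 1
  ring

lemma asin_pos (R : ℝ) (hR : 0 < R) :
    ∫⁻ X in {X : ℝ | X ∈ Ici (0 : ℝ) ∧ X ^ 2 < R ^ 2},
      ENNReal.ofReal (1 / Real.sqrt (R ^ 2 - X ^ 2)) = ENNReal.ofReal (Real.pi / 2) := by
  have hpi := Real.pi_pos
  have h1 : {X : ℝ | X ∈ Ici (0 : ℝ) ∧ X ^ 2 < R ^ 2} =
      (fun θ => R * Real.sin θ) '' Ico 0 (Real.pi / 2) := by
    ext X
    constructor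
    · rintro ⟨h0, h⟩
      have h2 : 0 ≤ X / R := div_nonneg h0 hR.le
      exact ⟨_, ⟨Real.arcsin_nonneg.2 h2, (sin_image R hR X h).1.2⟩, (sin_image R hR X h).2⟩
    · rintro ⟨θ, hθ, rfl⟩
      have hθ' : θ ∈ Ioo (-(Real.pi / 2)) (Real.pi / 2) := ⟨by linarith [hθ.1], hθ.2⟩
      have hs : 0 ≤ Real.sin θ := Real.sin_nonneg_of_nonneg_of_le_pi hθ.1 (by linarith [hθ.2])
      refine ⟨?_, ?_⟩
      · show (0 : ℝ) ≤ R * Real.sin θ
        positivity
      have hc : 0 < Real.cos θ := Real.cos_pos_of_mem_Ioo hθ'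
      have h2 := Real.sin_sq_add_cos_sq θ
      show (R * Real.sin θ) ^ 2 < R ^ 2
      have h3 : 0 < (R * Real.cos θ) ^ 2 := by positivity
      nlinarith
  rw [h1, asin R hR _ measurableSet_Ico (fun θ hθ => ⟨by linarith [hθ.1], hθ.2⟩), Real.volume_Ico]
  congr 1
  ring

/-! ### Three variables -/

lemma tri (Ψ : ℝ × ℝ × ℝ → ℝ≥0∞) (hΨ : Measurable Ψ) (a : ℝ) (ha : a ≠ 0) :
    ∫⁻ v : ℝ × ℝ × ℝ, Ψ (v.1 / a, v.1 ^ 2 - a * v.2.1,
      2 * v.1 ^ 3 - 3 * a * v.1 * v.2.1 + a ^ 2 * v.2.2) =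
      ENNReal.ofReal (a ^ 2)⁻¹ * ∫⁻ v, Ψ v := by
  have hm1 : Measurable fun v : ℝ × ℝ × ℝ => Ψ (v.1 / a, v.1 ^ 2 - a * v.2.1,
      2 * v.1 ^ 3 - 3 * a * v.1 * v.2.1 + a ^ 2 * v.2.2) := hΨ.comp (by fun_prop)
  rw [Measure.volume_eq_prod, lintegral_prod _ hm1.aemeasurable,
    lintegral_prod _ hΨ.aemeasurable]
  -- the two inner variables
  have h1 : ∀ b : ℝ, ∫⁻ u : ℝ × ℝ, Ψ (b / a, b ^ 2 - a * u.1,
      2 * b ^ 3 - 3 * a * b * u.1 + a ^ 2 * u.2) =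
      ENNReal.ofReal |(a ^ 2)⁻¹| * (ENNReal.ofReal |(-a)⁻¹| * ∫⁻ u : ℝ × ℝ, Ψ (b / a, u)) := by
    intro b
    have hm2 : Measurable fun u : ℝ × ℝ => Ψ (b / a, b ^ 2 - a * u.1,
      2 * b ^ 3 - 3 * a * b * u.1 + a ^ 2 * u.2) := hΨ.comp (by fun_prop)
    have hm3 : Measurable fun u : ℝ × ℝ => Ψ (b / a, u) := hΨ.comp (by fun_prop)
    rw [Measure.volume_eq_prod, lintegral_prod _ hm2.aemeasurable,
      lintegral_prod _ hm3.aemeasurable]
    have h2 : ∀ c : ℝ, ∫⁻ d : ℝ, Ψ (b / a, b ^ 2 - a * c,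
        2 * b ^ 3 - 3 * a * b * c + a ^ 2 * d) =
        ENNReal.ofReal |(a ^ 2)⁻¹| * ∫⁻ X : ℝ, Ψ (b / a, b ^ 2 - a * c, X) := by
      intro c
      rw [← aff (fun X => Ψ (b / a, b ^ 2 - a * c, X)) (hΨ.comp (by fun_prop)) (a ^ 2)
        (2 * b ^ 3 - 3 * a * b * c) (by positivity)]
      refine lintegral_congr fun d => ?_
      rw [add_comm]
    have hm4 : Measurable fun P : ℝ => ∫⁻ X : ℝ, Ψ (b / a, P, X) :=
      (hΨ.comp (show Measurable fun u : ℝ × ℝ => (b / a, u.1, u.2) by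
        fun_prop)).lintegral_prod_right'
    have hm5 : Measurable fun c : ℝ => ∫⁻ X : ℝ, Ψ (b / a, b ^ 2 - a * c, X) :=
      hm4.comp (by fun_prop)
    simp only [h2]
    rw [lintegral_const_mul _ hm5, ← aff (fun P => ∫⁻ X : ℝ, Ψ (b / a, P, X)) hm4 (-a) (b ^ 2)
      (neg_ne_zero.2 ha)]
    congr 1
    refine lintegral_congr fun c => ?_
    rw [show b ^ 2 - a * c = -a * c + b ^ 2 by ring]
  have hm6 : Measurable fun x : ℝ => ∫⁻ u : ℝ × ℝ, Ψ (x, u) := hΨ.lintegral_prod_right'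
  have hm7 : Measurable fun b : ℝ => ∫⁻ u : ℝ × ℝ, Ψ (b / a, u) := hm6.comp (by fun_prop)
  simp only [h1]
  rw [lintegral_const_mul _ (hm7.const_mul _), lintegral_const_mul _ hm7]
  have h3 : ∫⁻ b : ℝ, ∫⁻ u : ℝ × ℝ, Ψ (b / a, u) =
      ENNReal.ofReal |a⁻¹⁻¹| * ∫⁻ x : ℝ, ∫⁻ u : ℝ × ℝ, Ψ (x, u) := by
    rw [← aff (fun x => ∫⁻ u : ℝ × ℝ, Ψ (x, u)) hm6 a⁻¹ 0 (inv_ne_zero ha)]
    refine lintegral_congr fun b => ?_
    rw [show b / a = a⁻¹ * b + 0 by ring]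
  rw [h3, ← mul_assoc, ← mul_assoc, ← ENNReal.ofReal_mul (abs_nonneg _),
    ← ENNReal.ofReal_mul (by positivity)]
  congr 2
  rw [← abs_mul, ← abs_mul]
  have h4 : (a ^ 2)⁻¹ * (-a)⁻¹ * a⁻¹⁻¹ = -(a ^ 2)⁻¹ := by
    field_simp
  rw [h4, abs_neg, abs_of_nonneg (by positivity)]

/-! ### The main computation -/

/-- the domain of `(x, P, X)` -/
def Tt (B : Set ℝ) : Set (ℝ × ℝ × ℝ) :=
  {v | v.2.2 ∈ B ∧ 0 < v.2.1 ∧ 0 < 4 * v.2.1 ^ 3 - v.2.2 ^ 2}

lemma meas_Tt {B : Set ℝ} (hB : MeasurableSet B) : MeasurableSet (Tt B) := by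
  have h1 : MeasurableSet {v : ℝ × ℝ × ℝ | v.2.2 ∈ B} :=
    hB.preimage (measurable_snd.comp measurable_snd)
  have h2 : MeasurableSet {v : ℝ × ℝ × ℝ | 0 < v.2.1} :=
    measurableSet_lt measurable_const (by fun_prop)
  have h3 : MeasurableSet {v : ℝ × ℝ × ℝ | 0 < 4 * v.2.1 ^ 3 - v.2.2 ^ 2} :=
    measurableSet_lt measurable_const (by fun_prop)
  exact h1.inter (h2.inter h3)

lemma rM_eq (w : ℝ × ℝ × ℝ × ℝ) (hw : w.1 ≠ 0) : rM w = (4 * rP w ^ 3 - rX w ^ 2) / w.1 ^ 2 := by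
  have h : w.1 ^ 2 ≠ 0 := by positivity
  rw [eq_div_iff h]
  unfold rM rP rX
  ring

lemma gen (A B : Set ℝ) (hA : MeasurableSet A) (hB : MeasurableSet B) (hA0 : ∀ a ∈ A, a ≠ 0)
    (cA cB : ℝ≥0∞)
    (h1 : ∀ K : ℝ, 0 < K → ∀ g : ℝ → ℝ≥0∞, ∫⁻ a in A, ENNReal.ofReal (a ^ 2)⁻¹ * g (K / a ^ 2) =
      cA * ∫⁻ M in Ioi (0 : ℝ), g M * ENNReal.ofReal (1 / (2 * Real.sqrt (K * M))))
    (h2 : ∀ R : ℝ, 0 < R → ∫⁻ X in {X : ℝ | X ∈ B ∧ X ^ 2 < R ^ 2},
      ENNReal.ofReal (1 / Real.sqrt (R ^ 2 - X ^ 2)) = cB)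
    (h : ℝ × ℝ × ℝ → ℝ≥0∞) (hh : Measurable h) :
    ∫⁻ w : ℝ × ℝ × ℝ × ℝ in {w | w.1 ∈ A ∧ rX w ∈ B ∧ 0 < rP w ∧ 0 < rM w},
        h (w.2.1 / w.1, rP w, rM w) =
      ∫⁻ u : ℝ × ℝ × ℝ in {u | 0 < u.2.1 ∧ 0 < u.2.2},
        h u * (ENNReal.ofReal (1 / (2 * Real.sqrt u.2.2)) * (cA * cB)) := by
  classical
  set S : Set (ℝ × ℝ × ℝ × ℝ) := {w | w.1 ∈ A ∧ rX w ∈ B ∧ 0 < rP w ∧ 0 < rM w} with hSdef
  set U : Set (ℝ × ℝ × ℝ) := {u | 0 < u.2.1 ∧ 0 < u.2.2} with hUdef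
  have mP : Measurable rP := by unfold rP; fun_prop
  have mM : Measurable rM := by unfold rM; fun_prop
  have mX : Measurable rX := by unfold rX; fun_prop
  have hS : MeasurableSet S :=
    (hA.preimage measurable_fst).inter ((hB.preimage mX).inter
      ((measurableSet_lt measurable_const mP).inter (measurableSet_lt measurable_const mM)))
  have hU : MeasurableSet U :=
    (measurableSet_lt measurable_const (measurable_fst.comp measurable_snd)).inter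
      (measurableSet_lt measurable_const (measurable_snd.comp measurable_snd))
  have hT := meas_Tt hB
  have mf : Measurable fun w : ℝ × ℝ × ℝ × ℝ => h (w.2.1 / w.1, rP w, rM w) :=
    hh.comp (by fun_prop)
  -- the function `Ψ`
  set Ψ : ℝ → ℝ × ℝ × ℝ → ℝ≥0∞ := fun a => (Tt B).indicator fun v =>
    h (v.1, v.2.1, (4 * v.2.1 ^ 3 - v.2.2 ^ 2) / a ^ 2) with hΨdef
  have mΨ2 : Measurable fun p : ℝ × ℝ × ℝ × ℝ => Ψ p.1 p.2 := by
    have h3 : (fun p : ℝ × ℝ × ℝ × ℝ => Ψ p.1 p.2) =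
        (Prod.snd ⁻¹' (Tt B)).indicator fun p : ℝ × ℝ × ℝ × ℝ =>
          h (p.2.1, p.2.2.1, (4 * p.2.2.1 ^ 3 - p.2.2.2 ^ 2) / p.1 ^ 2) := by
      funext p
      by_cases hp : p.2 ∈ Tt B
      · rw [Set.indicator_of_mem (show p ∈ Prod.snd ⁻¹' (Tt B) from hp)]
        exact Set.indicator_of_mem hp _
      · rw [Set.indicator_of_notMem (show p ∉ Prod.snd ⁻¹' (Tt B) from hp)]
        exact Set.indicator_of_notMem hp _
    rw [h3]
    exact (hh.comp (by fun_prop)).indicator (hT.preimage measurable_snd)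
  have mΨ : ∀ a, Measurable (Ψ a) := fun a => mΨ2.comp measurable_prodMk_left
  -- step 1
  have e1 : ∀ a : ℝ, ∫⁻ v : ℝ × ℝ × ℝ, S.indicator (fun w : ℝ × ℝ × ℝ × ℝ =>
      h (w.2.1 / w.1, rP w, rM w)) (a, v) =
      ∫⁻ v : ℝ × ℝ × ℝ, A.indicator (fun a => ENNReal.ofReal (a ^ 2)⁻¹ * Ψ a v) a := by
    intro a
    by_cases ha : a ∈ A
    · have ha0 := hA0 a ha
      have ha2 : 0 < a ^ 2 := by positivity
      simp only [Set.indicator_of_mem ha]
      rw [lintegral_const_mul _ (mΨ a), ← tri (Ψ a) (mΨ a) a ha0]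
      refine lintegral_congr fun v => ?_
      have hM := rM_eq (a, v) ha0
      have hiff : (a, v) ∈ S ↔ (v.1 / a, v.1 ^ 2 - a * v.2.1,
          2 * v.1 ^ 3 - 3 * a * v.1 * v.2.1 + a ^ 2 * v.2.2) ∈ Tt B := by
        constructor
        · rintro ⟨-, h3, h4, h5⟩
          refine ⟨h3, h4, ?_⟩
          rw [hM] at h5
          exact (div_pos_iff_of_pos_right ha2).1 h5
        · rintro ⟨h3, h4, h5⟩
          refine ⟨ha, h3, h4, ?_⟩
          rw [hM]
          exact div_pos h5 ha2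
      by_cases hv : (a, v) ∈ S
      · rw [Set.indicator_of_mem hv]
        have h3 := Set.indicator_of_mem (hiff.1 hv) (fun v : ℝ × ℝ × ℝ =>
          h (v.1, v.2.1, (4 * v.2.1 ^ 3 - v.2.2 ^ 2) / a ^ 2))
        rw [show Ψ a = (Tt B).indicator (fun v : ℝ × ℝ × ℝ =>
          h (v.1, v.2.1, (4 * v.2.1 ^ 3 - v.2.2 ^ 2) / a ^ 2)) from rfl, h3]
        rw [hM]
        rfl
      · rw [Set.indicator_of_notMem hv]
        have h3 := Set.indicator_of_notMem (fun hc => hv (hiff.2 hc)) (fun v : ℝ × ℝ × ℝ =>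
          h (v.1, v.2.1, (4 * v.2.1 ^ 3 - v.2.2 ^ 2) / a ^ 2))
        rw [show Ψ a = (Tt B).indicator (fun v : ℝ × ℝ × ℝ =>
          h (v.1, v.2.1, (4 * v.2.1 ^ 3 - v.2.2 ^ 2) / a ^ 2)) from rfl, h3]
    · simp only [Set.indicator_of_notMem ha]
      refine lintegral_congr fun v => ?_
      exact Set.indicator_of_notMem (fun hc => ha hc.1) _
  have mA : Measurable fun p : ℝ × ℝ × ℝ × ℝ =>
      A.indicator (fun a => ENNReal.ofReal (a ^ 2)⁻¹ * Ψ a p.2) p.1 := by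
    have h3 : (fun p : ℝ × ℝ × ℝ × ℝ =>
        A.indicator (fun a => ENNReal.ofReal (a ^ 2)⁻¹ * Ψ a p.2) p.1) =
        (Prod.fst ⁻¹' A).indicator fun p : ℝ × ℝ × ℝ × ℝ =>
          ENNReal.ofReal (p.1 ^ 2)⁻¹ * Ψ p.1 p.2 := by
      funext p
      by_cases hp : p.1 ∈ A
      · rw [Set.indicator_of_mem (show p ∈ Prod.fst ⁻¹' A from hp), Set.indicator_of_mem hp]
      · rw [Set.indicator_of_notMem (show p ∉ Prod.fst ⁻¹' A from hp),
          Set.indicator_of_notMem hp]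
    rw [h3]
    exact ((by fun_prop : Measurable fun p : ℝ × ℝ × ℝ × ℝ =>
      ENNReal.ofReal (p.1 ^ 2)⁻¹).mul mΨ2).indicator (hA.preimage measurable_fst)
  -- the function `Θ`
  set Θ : ℝ × ℝ × ℝ → ℝ → ℝ≥0∞ := fun v M => (Tt B ×ˢ Ioi (0 : ℝ)).indicator
    (fun p : (ℝ × ℝ × ℝ) × ℝ => cA * (h (p.1.1, p.1.2.1, p.2) *
      ENNReal.ofReal (1 / (2 * Real.sqrt ((4 * p.1.2.1 ^ 3 - p.1.2.2 ^ 2) * p.2))))) (v, M)
    with hΘdef
  have mΘ : Measurable fun p : (ℝ × ℝ × ℝ) × ℝ => Θ p.1 p.2 := by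
    have h3 : Measurable fun p : (ℝ × ℝ × ℝ) × ℝ => cA * (h (p.1.1, p.1.2.1, p.2) *
      ENNReal.ofReal (1 / (2 * Real.sqrt ((4 * p.1.2.1 ^ 3 - p.1.2.2 ^ 2) * p.2)))) :=
      ((hh.comp (by fun_prop)).mul (by fun_prop)).const_mul cA
    exact h3.indicator (hT.prod measurableSet_Ioi)
  have e2 : ∀ v : ℝ × ℝ × ℝ, ∫⁻ a : ℝ, A.indicator (fun a => ENNReal.ofReal (a ^ 2)⁻¹ * Ψ a v) a =
      ∫⁻ M : ℝ, Θ v M := by
    intro v
    rw [lintegral_indicator hA]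
    by_cases hv : v ∈ Tt B
    · have h3 := h1 (4 * v.2.1 ^ 3 - v.2.2 ^ 2) hv.2.2 (fun M => h (v.1, v.2.1, M))
      have h4 : ∀ a, Ψ a v = h (v.1, v.2.1, (4 * v.2.1 ^ 3 - v.2.2 ^ 2) / a ^ 2) :=
        fun a => Set.indicator_of_mem hv _
      simp only [h4]
      rw [h3]
      have h5 : ∀ M, Θ v M = (Ioi (0 : ℝ)).indicator (fun M => cA * (h (v.1, v.2.1, M) *
          ENNReal.ofReal (1 / (2 * Real.sqrt ((4 * v.2.1 ^ 3 - v.2.2 ^ 2) * M))))) M := by
        intro M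
        by_cases hM : M ∈ Ioi (0 : ℝ)
        · rw [Set.indicator_of_mem hM]
          exact Set.indicator_of_mem (show (v, M) ∈ Tt B ×ˢ Ioi (0 : ℝ) from ⟨hv, hM⟩) _
        · rw [Set.indicator_of_notMem hM]
          exact Set.indicator_of_notMem (fun hc => hM hc.2) _
      simp only [h5]
      have h6 : Measurable fun M : ℝ => h (v.1, v.2.1, M) :=
        hh.comp (show Measurable fun M : ℝ => (v.1, v.2.1, M) by fun_prop)
      have h7 : Measurable fun M : ℝ => h (v.1, v.2.1, M) *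
          ENNReal.ofReal (1 / (2 * Real.sqrt ((4 * v.2.1 ^ 3 - v.2.2 ^ 2) * M))) :=
        h6.mul (by fun_prop)
      rw [lintegral_indicator measurableSet_Ioi, lintegral_const_mul _ h7]
    · have h4 : ∀ a, Ψ a v = 0 := fun a => Set.indicator_of_notMem hv _
      have h5 : ∀ M, Θ v M = 0 := fun M => Set.indicator_of_notMem (fun hc => hv hc.1) _
      simp only [h4, h5, mul_zero, lintegral_zero]
  -- the last integration
  have e3 : ∀ x P M : ℝ, ∫⁻ X : ℝ, Θ (x, P, X) M =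
      U.indicator (fun u => h u * (ENNReal.ofReal (1 / (2 * Real.sqrt u.2.2)) * (cA * cB)))
        (x, P, M) := by
    intro x P M
    by_cases hu : (x, P, M) ∈ U
    · have hP : 0 < P := hu.1
      have hM : 0 < M := hu.2
      rw [Set.indicator_of_mem hu]
      have hR : 0 < Real.sqrt (4 * P ^ 3) := Real.sqrt_pos.2 (by positivity)
      have hR2 : Real.sqrt (4 * P ^ 3) ^ 2 = 4 * P ^ 3 := Real.sq_sqrt (by positivity)
      have h3 := h2 _ hR
      rw [hR2] at h3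
      have hms : MeasurableSet {X : ℝ | X ∈ B ∧ X ^ 2 < 4 * P ^ 3} :=
        hB.inter (measurableSet_lt (measurable_id.pow_const 2) measurable_const)
      have h4 : ∀ X, Θ (x, P, X) M = {X : ℝ | X ∈ B ∧ X ^ 2 < 4 * P ^ 3}.indicator
          (fun X => (cA * (h (x, P, M) * ENNReal.ofReal (1 / (2 * Real.sqrt M)))) *
            ENNReal.ofReal (1 / Real.sqrt (4 * P ^ 3 - X ^ 2))) X := by
        intro X
        by_cases hX : X ∈ {X : ℝ | X ∈ B ∧ X ^ 2 < 4 * P ^ 3}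
        · rw [Set.indicator_of_mem hX]
          have hK : 0 < 4 * P ^ 3 - X ^ 2 := sub_pos.2 hX.2
          have h5 : Θ (x, P, X) M = cA * (h (x, P, M) *
              ENNReal.ofReal (1 / (2 * Real.sqrt ((4 * P ^ 3 - X ^ 2) * M)))) :=
            Set.indicator_of_mem (show ((x, P, X), M) ∈ Tt B ×ˢ Ioi (0 : ℝ) from
              ⟨⟨hX.1, hP, hK⟩, hM⟩) _
          rw [h5, mul_assoc, mul_assoc, ← ENNReal.ofReal_mul (by positivity)]
          congr 3
          rw [Real.sqrt_mul hK.le]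
          have h6 := Real.sqrt_pos.2 hK
          have h7 := Real.sqrt_pos.2 hM
          field_simp
        · rw [Set.indicator_of_notMem hX]
          refine Set.indicator_of_notMem (fun hc => hX ⟨hc.1.1, ?_⟩) _
          have h5 : 0 < 4 * P ^ 3 - X ^ 2 := hc.1.2.2
          linarith
      simp only [h4]
      rw [lintegral_indicator hms, lintegral_const_mul _ (by fun_prop), h3]
      show cA * (h (x, P, M) * ENNReal.ofReal (1 / (2 * Real.sqrt M))) * cB =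
        h (x, P, M) * (ENNReal.ofReal (1 / (2 * Real.sqrt M)) * (cA * cB))
      ring
    · rw [Set.indicator_of_notMem hu]
      have h5 : ∀ X, Θ (x, P, X) M = 0 := fun X =>
        Set.indicator_of_notMem (fun hc => hu ⟨hc.1.2.1, hc.2⟩) _
      simp only [h5, lintegral_zero]
  -- assembly
  rw [← lintegral_indicator hS, ← lintegral_indicator hU]
  have mS : Measurable (S.indicator fun w : ℝ × ℝ × ℝ × ℝ => h (w.2.1 / w.1, rP w, rM w)) :=
    mf.indicator hS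
  have mRHS : Measurable (U.indicator (fun u : ℝ × ℝ × ℝ =>
      h u * (ENNReal.ofReal (1 / (2 * Real.sqrt u.2.2)) * (cA * cB)))) :=
    (hh.mul ((by fun_prop : Measurable fun u : ℝ × ℝ × ℝ =>
      ENNReal.ofReal (1 / (2 * Real.sqrt u.2.2))).mul_const _)).indicator hU
  calc ∫⁻ w : ℝ × ℝ × ℝ × ℝ, S.indicator (fun w => h (w.2.1 / w.1, rP w, rM w)) w
      = ∫⁻ a : ℝ, ∫⁻ v : ℝ × ℝ × ℝ, S.indicator (fun w : ℝ × ℝ × ℝ × ℝ =>
          h (w.2.1 / w.1, rP w, rM w)) (a, v) := by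
        rw [Measure.volume_eq_prod, lintegral_prod _ mS.aemeasurable]
    _ = ∫⁻ a : ℝ, ∫⁻ v : ℝ × ℝ × ℝ,
          A.indicator (fun a => ENNReal.ofReal (a ^ 2)⁻¹ * Ψ a v) a :=
        lintegral_congr e1
    _ = ∫⁻ v : ℝ × ℝ × ℝ, ∫⁻ a : ℝ,
          A.indicator (fun a => ENNReal.ofReal (a ^ 2)⁻¹ * Ψ a v) a :=
        lintegral_lintegral_swap mA.aemeasurable
    _ = ∫⁻ v : ℝ × ℝ × ℝ, ∫⁻ M : ℝ, Θ v M := lintegral_congr e2
    _ = ∫⁻ x : ℝ, ∫⁻ P : ℝ, ∫⁻ X : ℝ, ∫⁻ M : ℝ, Θ (x, P, X) M := by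
        have m1 : Measurable fun v : ℝ × ℝ × ℝ => ∫⁻ M : ℝ, Θ v M := mΘ.lintegral_prod_right'
        rw [Measure.volume_eq_prod, lintegral_prod _ m1.aemeasurable]
        refine lintegral_congr fun x => ?_
        have m2 : Measurable fun u : ℝ × ℝ => ∫⁻ M : ℝ, Θ (x, u) M :=
          m1.comp measurable_prodMk_left
        rw [Measure.volume_eq_prod, lintegral_prod _ m2.aemeasurable]
    _ = ∫⁻ x : ℝ, ∫⁻ P : ℝ, ∫⁻ M : ℝ, ∫⁻ X : ℝ, Θ (x, P, X) M := by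
        refine lintegral_congr fun x => lintegral_congr fun P => ?_
        refine lintegral_lintegral_swap ?_
        exact (mΘ.comp (show Measurable fun p : ℝ × ℝ => ((x, P, p.1), p.2) by
          fun_prop)).aemeasurable
    _ = ∫⁻ x : ℝ, ∫⁻ P : ℝ, ∫⁻ M : ℝ, U.indicator (fun u =>
          h u * (ENNReal.ofReal (1 / (2 * Real.sqrt u.2.2)) * (cA * cB))) (x, P, M) :=
        lintegral_congr fun x => lintegral_congr fun P => lintegral_congr fun M => e3 x P M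
    _ = ∫⁻ u : ℝ × ℝ × ℝ, U.indicator (fun u =>
          h u * (ENNReal.ofReal (1 / (2 * Real.sqrt u.2.2)) * (cA * cB))) u := by
        rw [Measure.volume_eq_prod, lintegral_prod _ mRHS.aemeasurable]
        refine lintegral_congr fun x => ?_
        have m2 : Measurable fun y : ℝ × ℝ => U.indicator (fun u : ℝ × ℝ × ℝ =>
            h u * (ENNReal.ofReal (1 / (2 * Real.sqrt u.2.2)) * (cA * cB))) (x, y) :=
          mRHS.comp measurable_prodMk_left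
        rw [Measure.volume_eq_prod, lintegral_prod _ m2.aemeasurable]

/-- CHV. -/
theorem chv : ChvStmt := by
  intro h hh
  refine ⟨?_, ?_⟩
  · have h1 := gen (Ioi 0) (Ici 0) measurableSet_Ioi measurableSet_Ici
      (fun a ha => (show (0 : ℝ) < a from ha).ne') 1 (ENNReal.ofReal (Real.pi / 2))
      (fun K hK g => by rw [one_mul]; exact inv_pos K hK g) (fun R hR => asin_pos R hR) h hh
    refine Eq.trans h1 ?_
    refine setLIntegral_congr_fun ?_ fun u hu => ?_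
    · exact (measurableSet_lt measurable_const (measurable_fst.comp measurable_snd)).inter
        (measurableSet_lt measurable_const (measurable_snd.comp measurable_snd))
    · have hM : 0 < u.2.2 := hu.2
      have h7 := Real.sqrt_pos.2 hM
      show h u * (ENNReal.ofReal (1 / (2 * Real.sqrt u.2.2)) *
        (1 * ENNReal.ofReal (Real.pi / 2))) = h u * ENNReal.ofReal (Real.pi / (4 * √u.2.2))
      rw [one_mul, ← ENNReal.ofReal_mul (by positivity)]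
      congr 2
      field_simp
      norm_num
  · have h1 := gen {a | a ≠ 0} univ (measurableSet_singleton (0 : ℝ)).compl MeasurableSet.univ
      (fun a ha => ha) 2 (ENNReal.ofReal Real.pi)
      (fun K hK g => inv_ne K hK g) (fun R hR => asin_univ R hR) h hh
    have h2 : {w : ℝ × ℝ × ℝ × ℝ | w.1 ≠ 0 ∧ 0 < rP w ∧ 0 < rM w} =
        {w | w.1 ∈ {a : ℝ | a ≠ 0} ∧ rX w ∈ (univ : Set ℝ) ∧ 0 < rP w ∧ 0 < rM w} := by
      ext w
      constructor
      · rintro ⟨h3, h4⟩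
        exact ⟨h3, mem_univ _, h4⟩
      · rintro ⟨h3, -, h4⟩
        exact ⟨h3, h4⟩
    rw [h2]
    refine Eq.trans h1 ?_
    refine setLIntegral_congr_fun ?_ fun u hu => ?_
    · exact (measurableSet_lt measurable_const (measurable_fst.comp measurable_snd)).inter
        (measurableSet_lt measurable_const (measurable_snd.comp measurable_snd))
    · have hM : 0 < u.2.2 := hu.2
      have h7 := Real.sqrt_pos.2 hM
      show h u * (ENNReal.ofReal (1 / (2 * Real.sqrt u.2.2)) *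
        (2 * ENNReal.ofReal Real.pi)) = h u * ENNReal.ofReal (Real.pi / √u.2.2)
      rw [show (2 : ℝ≥0∞) = ENNReal.ofReal 2 by simp, ← ENNReal.ofReal_mul (by norm_num),
        ← ENNReal.ofReal_mul (by positivity)]
      congr 2
      field_simp

end Pool.Agent.Leo4.H29
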